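import Pool.Agent.Work.MP_e0aece_nt.Loc.Basic

/-!
# Localization of `R x`: asymptotic form and the reduction to boundedly many prime factors
-/

set_option autoImplicit false

namespace Pool.Agent.Work.MP_e0aece_nt

open Nat Filter Topology Asymptotics

lemma exists_exponent (K : ℕ) (B : ℝ) (hB : 0 ≤ B) (hK : (K : ℝ) ≤ Real.exp B) :
    ∃ m : ℕ, K ≤ 3 ^ m ∧ (m : ℝ) ≤ B + 1 := by
  refine ⟨⌊B⌋₊ + 1, ?_, ?_⟩
  · have h1 : (K : ℝ) ≤ (3 : ℝ) ^ (⌊B⌋₊ + 1) := by
      refine hK.trans ?_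
      have h2 : B ≤ ((⌊B⌋₊ + 1 : ℕ) : ℝ) := by
        push_cast
        exact (Nat.lt_floor_add_one B).le
      calc Real.exp B ≤ Real.exp ((⌊B⌋₊ + 1 : ℕ) : ℝ) := Real.exp_le_exp.mpr h2
        _ = Real.exp 1 ^ (⌊B⌋₊ + 1) := by rw [← Real.exp_nat_mul, mul_one]
        _ ≤ (3 : ℝ) ^ (⌊B⌋₊ + 1) := by
            refine pow_le_pow_left₀ (Real.exp_pos _).le ?_ _
            exact Real.exp_one_lt_d9.le.trans (by norm_num)
    exact_mod_cast h1
  · push_cast
    linarith [Nat.floor_le hB]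

lemma CF_castLE {d K K' : ℕ} (h : K ≤ K') (c : ℕ → Fin K) :
    CF d (fun p => Fin.castLE h (c p)) = CF d c := by
  ext n
  unfold CF
  simp only [Set.mem_ofPred_eq, Fin.castLE_inj]

/-- If `R x` is large then `RS (CF d c) x` is close to it. -/
lemma asymp_core (x B : ℝ) (d K : ℕ) (c : ℕ → Fin K) (hx : 1 ≤ x) (hB : 0 ≤ B)
    (hd1 : 1 ≤ d) (hd : Real.log x / d ≤ B) (hK : (K : ℝ) ≤ Real.exp B) :
    (R x : ℝ) ≤ RS (CF d c) x + 2 * B + 3 := by
  obtain ⟨m, hKm, hm⟩ := exists_exponent K B hB hK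
  have h1 := (localization x d m (fun p => Fin.castLE hKm (c p)) hx hd1).2
  rw [CF_castLE] at h1
  have h3 : 1 ≤ Real.log 3 := by
    rw [Real.le_log_iff_exp_le (by norm_num)]
    exact Real.exp_one_lt_d9.le.trans (by norm_num)
  have hd0 : (0 : ℝ) < d := by exact_mod_cast hd1
  have h4 : Real.log x / (d * Real.log 3) ≤ Real.log x / d := by
    refine div_le_div_of_nonneg_left (Real.log_nonneg hx) hd0 ?_
    nlinarith
  linarith

theorem tendsto_ratio (C₀ : ℝ) (ε : ℝ) (hε : 0 < ε) :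
    ∀ᶠ x : ℝ in atTop, 2 * (Real.log x / (Real.log (Real.log x)) ^ (C₀ + 1)) + 3 ≤
      ε * (Real.log x / (Real.log (Real.log x)) ^ C₀) := by
  have hL : Tendsto Real.log atTop atTop := Real.tendsto_log_atTop
  have hl : Tendsto (fun x : ℝ => Real.log (Real.log x)) atTop atTop := hL.comp hL
  have h1 : Tendsto (fun u : ℝ => (Real.log u) ^ C₀ / u) atTop (𝓝 0) := by
    have h2 := isLittleO_log_rpow_rpow_atTop C₀ (show (0 : ℝ) < 1 by norm_num)
    have h3 := h2.tendsto_div_nhds_zero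
    simpa only [Real.rpow_one] using h3
  have h4 := (h1.comp hL).eventually (gt_mem_nhds (show (0 : ℝ) < ε / 6 by positivity))
  filter_upwards [h4, hl.eventually_ge_atTop (4 / ε + 1), hL.eventually_ge_atTop 1]
    with x h5 h6 h7
  have hlpos : 0 < Real.log (Real.log x) := by
    have : 0 < 4 / ε := by positivity
    linarith
  have hLpos : 0 < Real.log x := by linarith
  set l := Real.log (Real.log x) with hldef
  have hpow : 0 < l ^ C₀ := Real.rpow_pos_of_pos hlpos _
  simp only [Function.comp_apply] at h5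
  rw [Real.rpow_add hlpos, Real.rpow_one]
  have h8 : l ^ C₀ ≤ ε / 6 * Real.log x := by
    have := h5.le
    rwa [div_le_iff₀ hLpos] at this
  have h9 : 3 ≤ ε / 2 * (Real.log x / l ^ C₀) := by
    rw [mul_div_assoc', le_div_iff₀ hpow]
    nlinarith
  have h10 : 4 / ε ≤ l := by linarith
  have h11 : 2 * (Real.log x / (l ^ C₀ * l)) ≤ ε / 2 * (Real.log x / l ^ C₀) := by
    have h12 : Real.log x / (l ^ C₀ * l) = (Real.log x / l ^ C₀) * (1 / l) := by
      field_simp
    rw [h12]
    have h13 : 1 / l ≤ ε / 4 := by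
      rw [div_le_div_iff₀ hlpos (by norm_num)]
      rw [div_le_iff₀ hε] at h10
      nlinarith
    have h14 : 0 ≤ Real.log x / l ^ C₀ := by positivity
    nlinarith
  linarith

theorem loc_asymp (hLL : ∃ C : ℝ, 0 < C ∧ ∀ᶠ x : ℝ in atTop,
      Real.log x / (Real.log (Real.log x)) ^ C ≤ (R x : ℝ)) :
    ∃ C : ℝ, 0 < C ∧ ∀ ε : ℝ, 0 < ε → ∀ᶠ x : ℝ in atTop,
      ∀ (d K : ℕ) (c : ℕ → Fin K), (Real.log (Real.log x)) ^ C ≤ d →
        (K : ℝ) ≤ Real.exp (Real.log x / (Real.log (Real.log x)) ^ C) →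
        (1 - ε) * (R x : ℝ) ≤ RS (CF d c) x ∧ RS (CF d c) x ≤ R x := by
  obtain ⟨C₀, hC₀, h⟩ := hLL
  refine ⟨C₀ + 1, by linarith, fun ε hε => ?_⟩
  have hL : Tendsto Real.log atTop atTop := Real.tendsto_log_atTop
  have hl : Tendsto (fun x : ℝ => Real.log (Real.log x)) atTop atTop := hL.comp hL
  filter_upwards [h, tendsto_ratio C₀ ε hε, hl.eventually_ge_atTop 1, hL.eventually_ge_atTop 1,
    eventually_ge_atTop 1] with x h1 h2 h3 h4 h5
  intro d K c hd hK
  refine ⟨?_, RS_le_R _ x⟩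
  have hlpos : 0 < Real.log (Real.log x) := by linarith
  have hpow : 1 ≤ (Real.log (Real.log x)) ^ (C₀ + 1) :=
    Real.one_le_rpow h3 (by linarith)
  have hdR : (1 : ℝ) ≤ d := hpow.trans hd
  have hd1 : 1 ≤ d := by exact_mod_cast hdR
  have hB : 0 ≤ Real.log x / (Real.log (Real.log x)) ^ (C₀ + 1) := by positivity
  have hdB : Real.log x / d ≤ Real.log x / (Real.log (Real.log x)) ^ (C₀ + 1) :=
    div_le_div_of_nonneg_left (by linarith) (by linarith) hd
  have h6 := asymp_core x _ d K c h5 hB hd1 hdB hK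
  have h7 : ε * (Real.log x / (Real.log (Real.log x)) ^ C₀) ≤ ε * (R x : ℝ) :=
    mul_le_mul_of_nonneg_left h1 hε.le
  linarith

/-- `R x = o(log x)` if and only if this holds for the Carmichael numbers with at most `d` prime
factors, for every fixed `d`. -/
theorem littleO_iff :
    ((fun x : ℝ => (R x : ℝ)) =o[atTop] Real.log) ↔
      ∀ d : ℕ, (fun x : ℝ => (RS {n | IsCarmichael n ∧ n.primeFactors.card ≤ d} x : ℝ))
        =o[atTop] Real.log := by
  constructor
  · intro h d
    refine (IsBigO.of_bound 1 ?_).trans_isLittleO h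
    filter_upwards with x
    rw [one_mul, Real.norm_natCast, Real.norm_natCast]
    exact_mod_cast RS_le_R _ x
  · intro h
    rw [isLittleO_iff]
    intro ε hε
    obtain ⟨d, hd⟩ := exists_nat_gt (3 / ε)
    have hdpos : (0 : ℝ) < d := lt_trans (by positivity) hd
    have hd1 : 1 ≤ d := by exact_mod_cast hdpos
    have h1 := (isLittleO_iff.mp (h d)) (show (0 : ℝ) < ε / 3 by positivity)
    have hL : Tendsto Real.log atTop atTop := Real.tendsto_log_atTop
    filter_upwards [h1, hL.eventually_ge_atTop (6 / ε + 1), eventually_ge_atTop 1] with x h2 h3 h4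
    have hLpos : 0 < Real.log x := by
      have : 0 < 6 / ε := by positivity
      linarith
    rw [Real.norm_natCast, Real.norm_of_nonneg hLpos.le] at h2 ⊢
    have hfew : CF d (fun _ : ℕ => (0 : Fin (3 ^ 0))) = {n | IsCarmichael n ∧ n.primeFactors.card ≤ d} := by
      ext n
      unfold CF
      simp
    have h5 := (localization x d 0 (fun _ : ℕ => (0 : Fin (3 ^ 0))) h4 hd1).2
    rw [hfew] at h5
    have h6 : 1 ≤ Real.log 3 := by
      rw [Real.le_log_iff_exp_le (by norm_num)]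
      exact Real.exp_one_lt_d9.le.trans (by norm_num)
    have h7 : Real.log x / (d * Real.log 3) ≤ ε / 3 * Real.log x := by
      rw [div_le_iff₀ (by positivity)]
      have h8 : 3 ≤ ε * d := by
        rw [div_lt_iff₀ hε] at hd
        nlinarith
      have h9 : 3 ≤ ε * d * Real.log 3 := by nlinarith
      nlinarith
    have h10 : 2 ≤ ε / 3 * Real.log x := by
      have h11 : 6 / ε ≤ Real.log x := by linarith
      rw [div_le_iff₀ hε] at h11
      nlinarith
    push_cast at h5
    linarith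

/-- If `R x` is not `o(log x)` then infinitely many Carmichael numbers have boundedly many prime
factors. -/
theorem barrier (h : ¬ ((fun x : ℝ => (R x : ℝ)) =o[atTop] Real.log)) :
    ∃ d : ℕ, {n | IsCarmichael n ∧ n.primeFactors.card ≤ d}.Infinite := by
  by_contra hcon
  push Not at hcon
  apply h
  rw [littleO_iff]
  intro d
  obtain ⟨N, hN⟩ := (hcon d).bddAbove
  have hb : ∀ x : ℝ, RS {n | IsCarmichael n ∧ n.primeFactors.card ≤ d} x ≤ R N := by
    intro x
    obtain ⟨W, hW, hrel⟩ := R_attained N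
    rw [← hW]
    exact Nat.sInf_le ⟨W, rfl, fun n hn h1 h2 h3 _ => hrel n h1 h2 h3 (by exact_mod_cast hN hn)⟩
  have h1 : (fun x : ℝ => (RS {n | IsCarmichael n ∧ n.primeFactors.card ≤ d} x : ℝ))
      =O[atTop] fun _ : ℝ => (1 : ℝ) := by
    refine IsBigO.of_bound (R N : ℝ) ?_
    filter_upwards with x
    rw [Real.norm_natCast, norm_one, mul_one]
    exact_mod_cast hb x
  exact h1.trans_isLittleO (isLittleO_const_left.2 (Or.inr
    (tendsto_norm_atTop_atTop.comp Real.tendsto_log_atTop)))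

end Pool.Agent.Work.MP_e0aece_nt
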