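import Pool.Agent.Work.MP_e0aece_nt.Defs

/-!
# Localization of `R x`: definitions

`WitFor S W x`: every odd composite `n ≤ x` in `S` has a witness in `W`.  `RS S x` is the least
cardinality of such a set.  `CF d c` is the set of the Carmichael numbers with at most `d` prime
factors on which the colouring `c` of the primes is constant.
-/

set_option autoImplicit false

namespace Pool.Agent.Work.MP_e0aece_nt

/-- Every odd composite `n ≤ x` in `S` has a witness in `W`. -/
def WitFor (S : Set ℕ) (W : Finset ℤ) (x : ℝ) : Prop :=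
  ∀ n ∈ S, Odd n → 1 < n → ¬ n.Prime → (n : ℝ) ≤ x → ∃ a ∈ W, IsWitness n a

/-- The least cardinality of a set `W` that contains a witness for every odd composite `n ≤ x` in
`S`. -/
noncomputable def RS (S : Set ℕ) (x : ℝ) : ℕ :=
  sInf {k : ℕ | ∃ W : Finset ℤ, W.card = k ∧ WitFor S W x}

/-- The Carmichael numbers with at most `d` prime factors, all of them of one colour under `c`. -/
def CF (d : ℕ) {K : ℕ} (c : ℕ → Fin K) : Set ℕ :=
  {n | IsCarmichael n ∧ n.primeFactors.card ≤ d ∧
    ∀ p ∈ n.primeFactors, ∀ q ∈ n.primeFactors, c p = c q}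

end Pool.Agent.Work.MP_e0aece_nt
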