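import Pool.Agent.Work.MP_e0aece_nt.Sandwich
import Pool.Agent.Work.MP_e0aece_nt.Loc.Defs

/-!
# Localization of `R x` to Carmichael numbers with few prime factors lying in one class
-/

set_option autoImplicit false

namespace Pool.Agent.Work.MP_e0aece_nt

open Nat

lemma RS_le_R (S : Set ℕ) (x : ℝ) : RS S x ≤ R x := by
  obtain ⟨W, hW, hrel⟩ := R_attained x
  rw [← hW]
  exact Nat.sInf_le ⟨W, rfl, fun n _ h1 h2 h3 h4 => hrel n h1 h2 h3 h4⟩

lemma RS_attained (S : Set ℕ) (x : ℝ) : ∃ W : Finset ℤ, W.card = RS S x ∧ WitFor S W x := by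
  obtain ⟨W, hW, hrel⟩ := R_attained x
  exact Nat.sInf_mem (s := {k : ℕ | ∃ W : Finset ℤ, W.card = k ∧ WitFor S W x})
    ⟨W.card, W, rfl, fun n _ h1 h2 h3 h4 => hrel n h1 h2 h3 h4⟩

/-- A Carmichael number whose primes have the same symbols at `a` has no witness `a`. -/
lemma not_witness_of_symb {n : ℕ} (hn : IsCarmichael n) {a : ℤ}
    (hsame : ∀ p q : ℕ, p.Prime → p ∣ n → q.Prime → q ∣ n → symb p a = symb q a) :
    ¬ IsWitness n a := by
  rintro ⟨hnd, hnp⟩
  have hodd := hn.odd
  have hsq := hn.squarefree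
  obtain ⟨p0, hp0, hp0n⟩ := Nat.exists_prime_and_dvd (show n ≠ 1 by have := hn.1; omega)
  rcases Nat.eq_zero_or_pos (symb p0 a) with h0 | h0
  · apply hnd
    apply int_dvd_of_squarefree hsq
    intro p hp hpn
    rw [← symb_eq_zero_iff, hsame p p0 hp hpn hp0 hp0n, h0]
  · apply hnp
    apply passes_of_symb_eq hn.1 hodd hsq (fun p hp hpn => hn.sub_one_dvd hp hpn)
      (e := symb p0 a - 1)
    intro p hp hpn
    rw [hsame p p0 hp hpn hp0 hp0n]
    omega

lemma symb_le {p : ℕ} (hp : p.Prime) (a : ℤ) : symb p a ≤ padicValNat 2 (p - 1) + 1 := by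
  have := Fact.mk hp
  by_cases hd : (p : ℤ) ∣ a
  · rw [symb_eq_zero_iff.mpr hd]; omega
  · rw [symb_of_not_dvd hd]
    have hne : (a : ZMod p) ≠ 0 := by
      intro h0
      exact hd ((ZMod.intCast_zmod_eq_zero_iff_dvd a p).mp h0)
    have h1 : orderOf (a : ZMod p) ∣ p - 1 :=
      orderOf_dvd_of_pow_eq_one (ZMod.pow_card_sub_one_eq_one hne)
    have h2 : p - 1 ≠ 0 := by have := hp.two_le; omega
    have h3 : padicValNat 2 (orderOf (a : ZMod p)) ≤ padicValNat 2 (p - 1) := by
      rw [← padicValNat_dvd_iff_le h2]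
      exact pow_padicValNat_dvd.trans h1
    omega

/-- A number with more than `d` distinct prime factors has two prime factors whose `d`-th powers are
at most the number. -/
lemma two_small_primes {n d : ℕ} (hn : n ≠ 0) (hd : 1 ≤ d) (h : d < n.primeFactors.card) :
    ∃ p q : ℕ, p ∈ n.primeFactors ∧ q ∈ n.primeFactors ∧ p ≠ q ∧ p ^ d ≤ n ∧ q ^ d ≤ n := by
  classical
  have hne : n.primeFactors.Nonempty := Finset.card_pos.mp (by omega)
  set p := n.primeFactors.min' hne with hp
  have hpm : p ∈ n.primeFactors := Finset.min'_mem _ _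
  set T := n.primeFactors.erase p with hT
  have hTc : T.card = n.primeFactors.card - 1 := Finset.card_erase_of_mem hpm
  have hTne : T.Nonempty := Finset.card_pos.mp (by omega)
  set q := T.min' hTne with hq
  have hqT : q ∈ T := Finset.min'_mem _ _
  have hqm : q ∈ n.primeFactors := Finset.mem_of_mem_erase hqT
  have hqp : q ≠ p := Finset.ne_of_mem_erase hqT
  have hprod : ∏ r ∈ T, r ≤ n := by
    refine Nat.le_of_dvd (Nat.pos_of_ne_zero hn) ?_
    refine (Finset.prod_dvd_prod_of_subset _ _ _ (Finset.erase_subset p _)).trans ?_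
    exact Nat.prod_primeFactors_dvd n
  have hqpow : q ^ d ≤ ∏ r ∈ T, r := by
    have h1 : q ^ T.card ≤ ∏ r ∈ T, r := by
      refine Finset.pow_card_le_prod T (fun r => r) q ?_
      intro r hr
      exact Finset.min'_le _ _ hr
    have h2 : q ^ d ≤ q ^ T.card :=
      Nat.pow_le_pow_right (Nat.prime_of_mem_primeFactors hqm).pos (by omega)
    exact h2.trans h1
  refine ⟨p, q, hpm, hqm, hqp.symm, ?_, hqpow.trans hprod⟩
  have hple : p ≤ q := Finset.min'_le _ _ hqm
  exact (Nat.pow_le_pow_left hple d).trans (hqpow.trans hprod)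

/-- The digits of the elements of `Fin (3 ^ m)`. -/
noncomputable def dig (m : ℕ) : Fin (3 ^ m) ≃ (Fin m → Fin 3) := finFunctionFinEquiv.symm

/-- The main inequality with the number of digits `l` of `⌊x ^ (1/d)⌋` in base `3`. -/
theorem R_le_RS (x : ℝ) (d m l : ℕ) (c : ℕ → Fin (3 ^ m)) (hd : 1 ≤ d)
    (hl : ∀ p : ℕ, ((p ^ d : ℕ) : ℝ) ≤ x → p < 3 ^ l) :
    R x ≤ RS (CF d c) x + m + l + 1 := by
  classical
  obtain ⟨W0, hW0, hrel0⟩ := RS_attained (CF d c) x
  let e0 : Fin W0.card ≃ W0 := (Finset.equivFin W0).symm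
  -- numbering of the coordinates
  let E : Fin (W0.card + m + l) ≃ (Fin W0.card ⊕ Fin m) ⊕ Fin l :=
    finSumFinEquiv.symm.trans (Equiv.sumCongr finSumFinEquiv.symm (Equiv.refl _))
  obtain ⟨W, hW, hrel⟩ := exists_reliable_of_colorings x (W0.card + m + l) (by
    intro v hv
    have h3v : 3 ≤ v + 2 := by omega
    let col : ℕ → ((Fin W0.card ⊕ Fin m) ⊕ Fin l) → Fin (v + 2) := fun p s =>
      match s with
      | Sum.inl (Sum.inl i) => ⟨min (symb p (e0 i)) (v + 1), by omega⟩
      | Sum.inl (Sum.inr i) => Fin.castLE h3v (dig m (c p) i)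
      | Sum.inr i => if h : p < 3 ^ l then Fin.castLE h3v (dig l ⟨p, h⟩ i) else 0
    refine ⟨fun p j => col p (E j), ?_⟩
    intro n hn hnx hval
    by_contra hcon
    push Not at hcon
    have hcol : ∀ p q : ℕ, p.Prime → p ∣ n → q.Prime → q ∣ n → ∀ s, col p s = col q s := by
      intro p q hp hpn hq hqn s
      have h1 := congrFun (hcon p q hp hpn hq hqn) (E.symm s)
      simpa using h1
    have hn0 : n ≠ 0 := by have := hn.1; omega
    by_cases hcf : n ∈ CF d c
    · obtain ⟨a, haW, hwit⟩ := hrel0 n hcf hn.odd hn.1 hn.2.1 hnx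
      refine not_witness_of_symb hn (a := a) ?_ hwit
      intro p q hp hpn hq hqn
      have h1 := hcol p q hp hpn hq hqn (Sum.inl (Sum.inl (e0.symm ⟨a, haW⟩)))
      have h2 : min (symb p a) (v + 1) = min (symb q a) (v + 1) := by
        have h3 := Fin.ext_iff.mp h1
        simpa [col] using h3
      have h4 := symb_le hp a
      have h5 := symb_le hq a
      rw [hval p hp hpn] at h4
      rw [hval q hq hqn] at h5
      rwa [min_eq_left h4, min_eq_left h5] at h2
    · have hc : ∀ p ∈ n.primeFactors, ∀ q ∈ n.primeFactors, c p = c q := by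
        intro p hp q hq
        apply (dig m).injective
        funext i
        have h1 := hcol p q (Nat.prime_of_mem_primeFactors hp) (Nat.dvd_of_mem_primeFactors hp)
          (Nat.prime_of_mem_primeFactors hq) (Nat.dvd_of_mem_primeFactors hq) (Sum.inl (Sum.inr i))
        exact Fin.castLE_injective h3v h1
      have hcard : d < n.primeFactors.card := by
        by_contra hle
        exact hcf ⟨hn, by omega, hc⟩
      obtain ⟨p, q, hp, hq, hpq, hpd, hqd⟩ := two_small_primes hn0 hd hcard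
      have hpl : p < 3 ^ l := hl p ((Nat.cast_le.mpr hpd).trans hnx)
      have hql : q < 3 ^ l := hl q ((Nat.cast_le.mpr hqd).trans hnx)
      apply hpq
      have h6 : (⟨p, hpl⟩ : Fin (3 ^ l)) = ⟨q, hql⟩ := by
        apply (dig l).injective
        funext i
        have h1 := hcol p q (Nat.prime_of_mem_primeFactors hp) (Nat.dvd_of_mem_primeFactors hp)
          (Nat.prime_of_mem_primeFactors hq) (Nat.dvd_of_mem_primeFactors hq) (Sum.inr i)
        have h2 : col p (Sum.inr i) = Fin.castLE h3v (dig l ⟨p, hpl⟩ i) := dif_pos hpl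
        have h3 : col q (Sum.inr i) = Fin.castLE h3v (dig l ⟨q, hql⟩ i) := dif_pos hql
        rw [h2, h3] at h1
        exact Fin.castLE_injective h3v h1
      exact Fin.ext_iff.mp h6)
  have h2 : R x ≤ W.card := Nat.sInf_le (show W.card ∈ _ from ⟨W, rfl, hrel⟩)
  rw [hW0] at hW
  omega

/-- The number of digits. -/
lemma digits_bound (x : ℝ) (d : ℕ) (hx : 1 ≤ x) (hd : 1 ≤ d) :
    ∃ l : ℕ, (∀ p : ℕ, ((p ^ d : ℕ) : ℝ) ≤ x → p < 3 ^ l) ∧
      (l : ℝ) ≤ Real.log x / (d * Real.log 3) + 1 := by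
  have h3 : 0 < Real.log 3 := Real.log_pos (by norm_num)
  have hd0 : (0 : ℝ) < d := by exact_mod_cast hd
  have hnn : 0 ≤ Real.log x / (d * Real.log 3) := div_nonneg (Real.log_nonneg hx) (by positivity)
  refine ⟨⌊Real.log x / (d * Real.log 3)⌋₊ + 1, ?_, ?_⟩
  · intro p hp
    rcases Nat.eq_zero_or_pos p with rfl | hp0
    · positivity
    have hpR : (0 : ℝ) < p := by exact_mod_cast hp0
    have h1 : (d : ℝ) * Real.log p ≤ Real.log x := by
      rw [← Real.log_pow]
      refine Real.log_le_log (by positivity) ?_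
      exact_mod_cast hp
    have h2 : Real.log p / Real.log 3 ≤ Real.log x / (d * Real.log 3) := by
      rw [div_le_div_iff₀ h3 (by positivity)]
      nlinarith
    have h4 : Real.log p / Real.log 3 < (⌊Real.log x / (d * Real.log 3)⌋₊ + 1 : ℕ) := by
      refine h2.trans_lt ?_
      push_cast
      exact Nat.lt_floor_add_one _
    have h5 : Real.log p < Real.log ((3 : ℝ) ^ (⌊Real.log x / (d * Real.log 3)⌋₊ + 1)) := by
      rw [Real.log_pow]
      rwa [div_lt_iff₀ h3] at h4
    have h6 := (Real.log_lt_log_iff hpR (by positivity)).mp h5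
    exact_mod_cast h6
  · push_cast
    linarith [Nat.floor_le hnn]

theorem localization (x : ℝ) (d m : ℕ) (c : ℕ → Fin (3 ^ m)) (hx : 1 ≤ x) (hd : 1 ≤ d) :
    RS (CF d c) x ≤ R x ∧
      (R x : ℝ) ≤ RS (CF d c) x + m + Real.log x / (d * Real.log 3) + 2 := by
  refine ⟨RS_le_R _ x, ?_⟩
  obtain ⟨l, hl, hlb⟩ := digits_bound x d hx hd
  have h1 := R_le_RS x d m l c hd hl
  have h2 : (R x : ℝ) ≤ RS (CF d c) x + m + l + 1 := by exact_mod_cast h1
  linarith

end Pool.Agent.Work.MP_e0aece_nt
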